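import Pool.Agent.MP_5f72fe_nt.H3.SpecA

/-!
The commutation relation at the prime `2` for the ternary theta series.
-/

set_option autoImplicit false
set_option linter.unnecessarySeqFocus false

namespace Pool.Agent.MP_5f72fe_nt.H26

open Pool.Agent.MP_5f72fe_nt.H3

theorem mem_Rp (n : ℕ) (a y b : ℤ) :
    (a, y, b) ∈ Rp n ↔ y ^ 2 + 3 * a ^ 2 + 3 * b ^ 2 = n ∧ y % 2 = b % 2 := by
  simp only [Rp, Finset.mem_filter, Finset.mem_product, Finset.mem_Icc]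
  refine ⟨fun h => h.2, fun h => ⟨?_, h⟩⟩
  have h1 := h.1
  have k : ∀ x : ℤ, x ≤ x ^ 2 ∧ -x ≤ x ^ 2 := fun x =>
    ⟨Int.le_self_sq x, by have := Int.le_self_sq (-x); rwa [neg_sq] at this⟩
  have ha := k a
  have hy := k y
  have hb := k b
  have ha' := sq_nonneg a
  have hy' := sq_nonneg y
  have hb' := sq_nonneg b
  omega

theorem mem_Rp0 (n : ℕ) (a y b : ℤ) :
    (a, y, b) ∈ Rp0 n ↔ (y ^ 2 + 3 * a ^ 2 + 3 * b ^ 2 = n ∧ y % 2 = b % 2) ∧ 3 ∣ b := by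
  simp only [Rp0, Finset.mem_filter, mem_Rp]

/-- the rotation of order three -/
def s1 (v : V) : V := (v.1, -(2 * v.2.2 + (v.2.1 - v.2.2) / 2), (v.2.1 - v.2.2) / 2)

/-- its inverse -/
def s2 (v : V) : V := (v.1, v.2.2 - (v.2.1 - v.2.2) / 2, -(v.2.2 + (v.2.1 - v.2.2) / 2))

theorem s1_eq (a b k : ℤ) : s1 (a, b + 2 * k, b) = (a, -(2 * b + k), k) := by
  have : (b + 2 * k - b) / 2 = k := by omega
  simp only [s1, this]

theorem s2_eq (a b k : ℤ) : s2 (a, b + 2 * k, b) = (a, b - k, -(b + k)) := by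
  have : (b + 2 * k - b) / 2 = k := by omega
  simp only [s2, this]

theorem exk {y b : ℤ} (h : y % 2 = b % 2) : ∃ k, y = b + 2 * k := ⟨(y - b) / 2, by omega⟩

theorem s21 (a b k : ℤ) : s2 (a, -(2 * b + k), k) = (a, b + 2 * k, b) := by
  have : -(2 * b + k) = k + 2 * (-b - k) := by ring
  rw [this, s2_eq]
  refine Prod.ext rfl (Prod.ext ?_ ?_) <;> simp only <;> ring

theorem s12 (a b k : ℤ) : s1 (a, b - k, -(b + k)) = (a, b + 2 * k, b) := by
  have : b - k = -(b + k) + 2 * b := by ring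
  rw [this, s1_eq]
  refine Prod.ext rfl (Prod.ext ?_ ?_) <;> simp only <;> ring

theorem split3 (n : ℕ) (g : V → ZMod 3) (hg : ∀ v : V, 3 ∣ v.2.1 → g v = 0) :
    ∑ v ∈ Rp n, g v = ∑ u ∈ Rp0 n, (g u + g (s1 u) + g (s2 u)) := by
  have h1 : ∑ u ∈ Rp0 n, g (s1 u) = ∑ v ∈ (Rp n).filter fun v => 3 ∣ v.2.2 + v.2.1, g v := by
    refine Finset.sum_nbij' s1 s2 ?_ ?_ ?_ ?_ (fun _ _ => rfl)
    · rintro ⟨a, y, b⟩ h
      rw [mem_Rp0] at h
      obtain ⟨k, rfl⟩ := exk h.1.2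
      rw [s1_eq, Finset.mem_filter, mem_Rp]
      refine ⟨⟨?_, by omega⟩, by have := h.2; simp only; omega⟩
      rw [← h.1.1]; ring
    · rintro ⟨a, y, b⟩ h
      rw [Finset.mem_filter, mem_Rp] at h
      obtain ⟨k, rfl⟩ := exk h.1.2
      rw [s2_eq, mem_Rp0]
      refine ⟨⟨?_, by omega⟩, by have := h.2; simp only at this; omega⟩
      rw [← h.1.1]; ring
    · rintro ⟨a, y, b⟩ h
      rw [mem_Rp0] at h
      obtain ⟨k, rfl⟩ := exk h.1.2
      rw [s1_eq, s21]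
    · rintro ⟨a, y, b⟩ h
      rw [Finset.mem_filter, mem_Rp] at h
      obtain ⟨k, rfl⟩ := exk h.1.2
      rw [s2_eq, s12]
  have h2 : ∑ u ∈ Rp0 n, g (s2 u) = ∑ v ∈ (Rp n).filter fun v => 3 ∣ v.2.2 - v.2.1, g v := by
    refine Finset.sum_nbij' s2 s1 ?_ ?_ ?_ ?_ (fun _ _ => rfl)
    · rintro ⟨a, y, b⟩ h
      rw [mem_Rp0] at h
      obtain ⟨k, rfl⟩ := exk h.1.2
      rw [s2_eq, Finset.mem_filter, mem_Rp]
      refine ⟨⟨?_, by omega⟩, by have := h.2; simp only; omega⟩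
      rw [← h.1.1]; ring
    · rintro ⟨a, y, b⟩ h
      rw [Finset.mem_filter, mem_Rp] at h
      obtain ⟨k, rfl⟩ := exk h.1.2
      rw [s1_eq, mem_Rp0]
      refine ⟨⟨?_, by omega⟩, by have := h.2; simp only at this; omega⟩
      rw [← h.1.1]; ring
    · rintro ⟨a, y, b⟩ h
      rw [mem_Rp0] at h
      obtain ⟨k, rfl⟩ := exk h.1.2
      rw [s2_eq, s12]
    · rintro ⟨a, y, b⟩ h
      rw [Finset.mem_filter, mem_Rp] at h
      obtain ⟨k, rfl⟩ := exk h.1.2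
      rw [s1_eq, s21]
  rw [Finset.sum_add_distrib, Finset.sum_add_distrib, h1, h2, Rp0, Finset.sum_filter,
    Finset.sum_filter, Finset.sum_filter, ← Finset.sum_add_distrib, ← Finset.sum_add_distrib]
  refine Finset.sum_congr rfl fun v _ => ?_
  by_cases h : 3 ∣ v.2.1
  · simp [hg v h]
  · have c1 : v.2.1 % 3 = 1 ∨ v.2.1 % 3 = 2 := by omega
    have c2 : v.2.2 % 3 = 0 ∨ v.2.2 % 3 = 1 ∨ v.2.2 % 3 = 2 := by omega
    split_ifs <;>
      first
        | (exfalso; rcases c1 with c1 | c1 <;> rcases c2 with c2 | c2 | c2 <;> omega)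
        | simp

/-- the image of the lattice under twice the rotation of order four -/
def InW (w : V) : Prop := w.1 % 2 = 0 ∧ w.2.2 % 2 = 0 ∧ (w.2.1 - w.1) % 4 = 0

/-- twice the lattice -/
def In2 (w : V) : Prop := w.1 % 2 = 0 ∧ w.2.2 % 2 = 0 ∧ (w.2.1 - w.2.2) % 4 = 0

/-- four times the lattice -/
def In4 (w : V) : Prop := w.1 % 4 = 0 ∧ w.2.2 % 4 = 0 ∧ (w.2.1 - w.2.2) % 8 = 0

instance : DecidablePred InW := fun w => by unfold InW; infer_instance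
instance : DecidablePred In2 := fun w => by unfold In2; infer_instance
instance : DecidablePred In4 := fun w => by unfold In4; infer_instance

/-- the character -/
def chi (r : ℤ) : ℤ := if r = 3 then -1 else if r = 7 then 1 else 0

/-- the counting identity -/
def Cnt (A b k r : ℤ) : Prop :=
  (if InW (2 * A, b + 2 * k, b) then (1 : ℤ) else 0) +
    (if InW (2 * A, -(2 * b + k), k) then 1 else 0) +
    (if InW (2 * A, b - k, -(b + k)) then 1 else 0) =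
  1 + if In2 (2 * A, b + 2 * k, b) then chi r + if In4 (2 * A, b + 2 * k, b) then 2 else 0 else 0

instance (A b k r : ℤ) : Decidable (Cnt A b k r) := by unfold Cnt; infer_instance

theorem cnt_res : ∀ t ∈ Finset.Ico (0 : ℤ) 8, ∀ r ∈ Finset.Ico (0 : ℤ) 8,
    ∀ s ∈ Finset.Ico (0 : ℤ) 8, (r ^ 2 + r * s + s ^ 2 + 3 * t ^ 2) % 4 = 0 ∨
      (r ^ 2 + r * s + s ^ 2 + 3 * t ^ 2) % 4 = 3 →
      Cnt t r s ((r ^ 2 + r * s + s ^ 2 + 3 * t ^ 2) % 8) := by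
  decide +kernel

theorem cnt (A b k N : ℤ) (h : b ^ 2 + b * k + k ^ 2 + 3 * A ^ 2 = N)
    (hN : N % 4 = 0 ∨ N % 4 = 3) : Cnt A b k (N % 8) := by
  have e : ((b % 8) ^ 2 + (b % 8) * (k % 8) + (k % 8) ^ 2 + 3 * (A % 8) ^ 2) % 8 = N % 8 := by
    rw [← h]
    have hb := Int.mod_modEq b 8
    have hk := Int.mod_modEq k 8
    have hA := Int.mod_modEq A 8
    exact (((hb.pow 2).add (hb.mul hk)).add (hk.pow 2)).add ((hA.pow 2).mul_left 3)
  have h0 := cnt_res (A % 8) (by rw [Finset.mem_Ico]; omega) (b % 8)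
    (by rw [Finset.mem_Ico]; omega) (k % 8) (by rw [Finset.mem_Ico]; omega) (by omega)
  rw [e] at h0
  have e1 : InW (2 * (A % 8), b % 8 + 2 * (k % 8), b % 8) ↔ InW (2 * A, b + 2 * k, b) := by
    simp only [InW]; omega
  have e2 : InW (2 * (A % 8), -(2 * (b % 8) + k % 8), k % 8) ↔
      InW (2 * A, -(2 * b + k), k) := by
    simp only [InW]; omega
  have e3 : InW (2 * (A % 8), b % 8 - k % 8, -(b % 8 + k % 8)) ↔
      InW (2 * A, b - k, -(b + k)) := by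
    simp only [InW]; omega
  have e4 : In2 (2 * (A % 8), b % 8 + 2 * (k % 8), b % 8) ↔ In2 (2 * A, b + 2 * k, b) := by
    simp only [In2]; omega
  have e5 : In4 (2 * (A % 8), b % 8 + 2 * (k % 8), b % 8) ↔ In4 (2 * A, b + 2 * k, b) := by
    simp only [In4]; omega
  simpa only [Cnt, e1, e2, e3, e4, e5] using h0

theorem dil (n : ℕ) (g : V → ZMod 3) :
    ∑ u ∈ Rp0 (4 * n), (if In2 u then g u else 0) = ∑ u ∈ Rp0 n, g ((2 : ℤ) • u) := by
  rw [← Finset.sum_filter]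
  symm
  refine Finset.sum_nbij' (fun u => (2 : ℤ) • u) (fun u => (u.1 / 2, u.2.1 / 2, u.2.2 / 2))
    ?_ ?_ ?_ ?_ (fun _ _ => rfl)
  · rintro ⟨a, y, b⟩ h
    rw [mem_Rp0] at h
    simp only [Prod.smul_mk, smul_eq_mul, Finset.mem_filter, mem_Rp0, In2]
    have := h.1.2
    have := h.2
    refine ⟨⟨⟨?_, by omega⟩, by omega⟩, by omega⟩
    push_cast
    rw [← h.1.1]; ring
  · rintro ⟨a, y, b⟩ h
    simp only [Finset.mem_filter, mem_Rp0, In2] at h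
    obtain ⟨⟨⟨h1, h2⟩, h3⟩, h4, h5, h6⟩ := h
    obtain ⟨a, rfl⟩ : ∃ x, a = 2 * x := ⟨a / 2, by omega⟩
    obtain ⟨b, rfl⟩ : ∃ x, b = 2 * x := ⟨b / 2, by omega⟩
    obtain ⟨y, rfl⟩ : ∃ x, y = 2 * x := ⟨y / 2, by omega⟩
    simp only [Int.mul_ediv_cancel_left _ (two_ne_zero), mem_Rp0]
    push_cast at h1
    exact ⟨⟨by linarith, by omega⟩, by omega⟩
  · rintro ⟨a, y, b⟩ _
    simp only [Prod.smul_mk, smul_eq_mul, Int.mul_ediv_cancel_left _ (two_ne_zero)]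
  · rintro ⟨a, y, b⟩ h
    simp only [Finset.mem_filter, mem_Rp0, In2] at h
    obtain ⟨⟨⟨h1, h2⟩, h3⟩, h4, h5, h6⟩ := h
    simp only [Prod.smul_mk, smul_eq_mul]
    refine Prod.ext ?_ (Prod.ext ?_ ?_) <;> simp only <;> omega

theorem rt_sum (n : ℕ) (g : V → ZMod 3) :
    ∑ v ∈ Rp n, g ((2 : ℤ) • rt v) = ∑ w ∈ Rp (4 * n), (if InW w then g w else 0) := by
  rw [← Finset.sum_filter]
  refine Finset.sum_nbij' (fun u => (2 : ℤ) • rt u)
    (fun u => (-(u.2.2 / 2), u.2.1 / 2, u.1 / 2)) ?_ ?_ ?_ ?_ (fun _ _ => rfl)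
  · rintro ⟨a, y, b⟩ h
    rw [mem_Rp] at h
    simp only [rt, Prod.smul_mk, smul_eq_mul, Finset.mem_filter, mem_Rp, InW]
    have := h.2
    refine ⟨⟨?_, by omega⟩, by omega⟩
    push_cast
    rw [← h.1]; ring
  · rintro ⟨a, y, b⟩ h
    simp only [Finset.mem_filter, mem_Rp, InW] at h
    obtain ⟨⟨h1, h2⟩, h4, h5, h6⟩ := h
    obtain ⟨a, rfl⟩ : ∃ x, a = 2 * x := ⟨a / 2, by omega⟩
    obtain ⟨b, rfl⟩ : ∃ x, b = 2 * x := ⟨b / 2, by omega⟩
    obtain ⟨y, rfl⟩ : ∃ x, y = 2 * x := ⟨y / 2, by omega⟩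
    simp only [Int.mul_ediv_cancel_left _ (two_ne_zero), mem_Rp]
    push_cast at h1
    exact ⟨by linarith, by omega⟩
  · rintro ⟨a, y, b⟩ _
    simp only [rt, Prod.smul_mk, smul_eq_mul, Int.mul_ediv_cancel_left _ (two_ne_zero), neg_neg]
  · rintro ⟨a, y, b⟩ h
    simp only [Finset.mem_filter, mem_Rp, InW] at h
    obtain ⟨⟨h1, h2⟩, h4, h5, h6⟩ := h
    simp only [rt, Prod.smul_mk, smul_eq_mul]
    refine Prod.ext ?_ (Prod.ext ?_ ?_) <;> simp only <;> omega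

theorem inv1 {φ : V → ZMod 3} (hφ : InC φ) (a b k : ℤ) :
    φ (a, -(2 * b + k), k) = φ (a, b + 2 * k, b) := by
  rw [← hφ.rot (a, b + 2 * k, b), ← hφ.hom (-2) (a, -(2 * b + k), k) (by decide)]
  congr 1
  simp only [sg, Prod.smul_mk, smul_eq_mul]
  refine Prod.ext ?_ (Prod.ext ?_ ?_) <;> simp only <;> ring

theorem inv2 {φ : V → ZMod 3} (hφ : InC φ) (a b k : ℤ) :
    φ (a, b - k, -(b + k)) = φ (a, b + 2 * k, b) := by
  have h := inv1 hφ a (-(b + k)) b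
  have e1 : -(2 * -(b + k) + b) = b + 2 * k := by ring
  have e2 : -(b + k) + 2 * b = b - k := by ring
  rw [e1, e2] at h
  exact h.symm

theorem step1 {φ : V → ZMod 3} (hφ : InC φ) (n : ℕ) :
    TH0 (T2 φ) n = ∑ v ∈ Rp n, φ ((2 : ℤ) • rt v) := by
  rw [split3 n (fun v => φ ((2 : ℤ) • rt v))
    (fun v hv => by rw [hφ.hom 2 _ (by decide)]; exact hφ.zero _ hv), TH0]
  refine Finset.sum_congr rfl ?_
  rintro ⟨a, y, b⟩ h
  rw [mem_Rp0] at h
  obtain ⟨k, rfl⟩ := exk h.1.2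
  rw [s1_eq, s2_eq, hφ.hom 2 _ (by decide), hφ.hom 2 _ (by decide), hφ.hom 2 _ (by decide),
    ← hφ.hom (-2) (rt (a, -(2 * b + k), k)) (by decide),
    ← hφ.hom (-2) (rt (a, b - k, -(b + k))) (by decide), T2]
  have e1 : rt (sg (a, b + 2 * k, b)) = (-2 : ℤ) • rt (a, -(2 * b + k), k) := by
    simp only [rt, sg, Prod.smul_mk, smul_eq_mul]
    refine Prod.ext ?_ (Prod.ext ?_ ?_) <;> simp only <;> ring
  have e2 : rt (sg' (a, b + 2 * k, b)) = (-2 : ℤ) • rt (a, b - k, -(b + k)) := by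
    simp only [rt, sg', Prod.smul_mk, smul_eq_mul]
    refine Prod.ext ?_ (Prod.ext ?_ ?_) <;> simp only <;> ring
  rw [e1, e2]

/-- the commutation relation -/
theorem comm2 {φ : V → ZMod 3} (hφ : InC φ) (n : ℕ) (hn : n % 4 = 0 ∨ n % 4 = 3) :
    TH0 (T2 φ) n = TH0 φ (4 * n) + (chi ((n : ℤ) % 8) : ZMod 3) * TH0 φ n +
      2 * ∑ u ∈ Rp0 n, (if In2 u then φ u else 0) := by
  rw [step1 hφ, rt_sum, split3 _ _ (fun v hv => by rw [hφ.zero v hv, ite_self])]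
  have key : ∀ u ∈ Rp0 (4 * n), ((if InW u then φ u else 0) + (if InW (s1 u) then φ (s1 u) else 0) +
      if InW (s2 u) then φ (s2 u) else 0) = φ u + if In2 u then
        ((chi ((n : ℤ) % 8) : ZMod 3) + if In4 u then 2 else 0) * φ u else 0 := by
    rintro ⟨a, y, b⟩ h
    rw [mem_Rp0] at h
    obtain ⟨k, rfl⟩ := exk h.1.2
    have h1 := h.1.1
    push_cast at h1
    obtain ⟨A, rfl⟩ : ∃ x, a = 2 * x := by
      rcases Int.even_or_odd' a with ⟨x, hx | hx⟩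
      · exact ⟨x, hx⟩
      · exfalso
        subst hx
        have : 4 * (b ^ 2 + b * k + k ^ 2 + 3 * x ^ 2 + 3 * x) + 3 = 4 * (n : ℤ) := by
          rw [← h1]; ring
        omega
    have h2 := cnt A b k n (by linarith) (by omega)
    have h3 := congrArg (fun z : ℤ => (z : ZMod 3) * φ (2 * A, b + 2 * k, b)) h2
    rw [s1_eq, s2_eq, inv1 hφ, inv2 hφ]
    simp only [Int.cast_add, Int.cast_ite, Int.cast_one, Int.cast_zero, Int.cast_ofNat, add_mul,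
      ite_mul, one_mul, zero_mul] at h3 ⊢
    exact h3
  rw [Finset.sum_congr rfl key, Finset.sum_add_distrib, dil, add_assoc, TH0, TH0, Finset.mul_sum,
    Finset.mul_sum, ← Finset.sum_add_distrib]
  congr 1
  refine Finset.sum_congr rfl ?_
  rintro ⟨a, y, b⟩ _
  have e : In4 ((2 : ℤ) • (a, y, b)) ↔ In2 (a, y, b) := by
    simp only [In4, In2, Prod.smul_mk, smul_eq_mul]; omega
  rw [hφ.hom 2 _ (by decide), add_mul]
  simp only [e]
  split_ifs <;> simp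

theorem rowEI2 : RowEI2 := by
  intro φ n hφ _ hn h m hm
  have h4 : 4 * (n * m ^ 2) = n * (2 * m) ^ 2 := by ring
  rcases Nat.even_or_odd' m with ⟨j, hj | hj⟩
  · have e : n * m ^ 2 = 4 * (n * j ^ 2) := by rw [hj]; ring
    rw [comm2 hφ _ (Or.inl (by omega)), h4, h _ (by omega), h m hm, e, dil]
    have : ∑ u ∈ Rp0 (n * j ^ 2), φ ((2 : ℤ) • u) = TH0 φ (n * j ^ 2) :=
      Finset.sum_congr rfl fun u _ => hφ.hom 2 _ (by decide)
    rw [this, h j (by omega)]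
    simp
  · have e : n * m ^ 2 = 4 * (n * (j ^ 2 + j)) + n := by rw [hj]; ring
    have e3 : (n * m ^ 2) % 4 = 3 := by omega
    rw [comm2 hφ _ (Or.inr e3), h4, h _ (by omega), h m hm, Finset.sum_eq_zero]
    · simp
    · rintro ⟨a, y, b⟩ hu
      rw [mem_Rp0] at hu
      rw [if_neg]
      rintro ⟨h1, h2, h3⟩
      simp only at h1 h2 h3
      obtain ⟨a, rfl⟩ : ∃ x, a = 2 * x := ⟨a / 2, by omega⟩
      obtain ⟨b, rfl⟩ : ∃ x, b = 2 * x := ⟨b / 2, by omega⟩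
      obtain ⟨y, rfl⟩ : ∃ x, y = 2 * x := ⟨y / 2, by omega⟩
      have : 4 * (y ^ 2 + 3 * a ^ 2 + 3 * b ^ 2) = ((n * m ^ 2 : ℕ) : ℤ) := by
        rw [← hu.1.1]; ring
      omega

end Pool.Agent.MP_5f72fe_nt.H26
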